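import Mathlib
import Pool.Agent.H97.Oaj

namespace Pool.Agent.Results.MP_78978c_an.Counter

/-- orthogonally additive maps -/
def OA {E F : Type} [AddCommGroup E] [Lattice E] [AddCommGroup F] (T : E → F) : Prop :=
  ∀ x y, |x| ⊓ |y| = 0 → T (x + y) = T x + T y

/-- `J` is the least upper bound of `S` and `T` among the orthogonally additive maps -/
def IsJoin {E F : Type} [AddCommGroup E] [Lattice E] [AddCommGroup F] [Lattice F]
    (S T J : E → F) : Prop :=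
  OA J ∧ (∀ x, S x ≤ J x) ∧ (∀ x, T x ≤ J x) ∧
    ∀ Q : E → F, OA Q → (∀ x, S x ≤ Q x) → (∀ x, T x ≤ Q x) → ∀ x, J x ≤ Q x

open Pool.Agent.H97.Oaj in
theorem result : ∃ (E F : Type) (_ : AddCommGroup E) (_ : Lattice E) (_ : IsOrderedAddMonoid E)
    (_ : Module ℝ E) (_ : PosSMulMono ℝ E) (_ : AddCommGroup F) (_ : Lattice F)
    (_ : IsOrderedAddMonoid F) (_ : Module ℝ F) (_ : PosSMulMono ℝ F) (S T J : E → F) (x : E),
    (∀ a b : F, (∀ n : ℕ, n • a ≤ b) → a ≤ 0) ∧ OA S ∧ OA T ∧ IsJoin S T J ∧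
      (∃ f : F, f < J x ∧ ∀ u v : E, u + v = x → |u| ⊓ |v| = 0 → S u + T v ≤ f) ∧
      ∀ (G : Type) [AddCommGroup G] [Lattice G] [Module ℝ G] (ι : F →ₗ[ℝ] G),
        (∀ a b, ι a ≤ ι b ↔ a ≤ b) → ∀ R : G,
          IsLUB {w | ∃ u v : E, u + v = x ∧ |u| ⊓ |v| = 0 ∧ w = ι (S u) + ι (T v)} R →
            R < ι (J x) := by
  have h : ∃ f : F, f < J one ∧ ∀ u v : E, u + v = one → |u| ⊓ |v| = 0 → S u + 0 ≤ f := by
    have h1 : ∀ u v : E, u + v = one → |u| ⊓ |v| = 0 → S u + 0 ≤ J one := fun u v a b => by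
      rw [← a, J_oa _ _ b]
      exact add_le_add (S_le u) (J_nn v)
    by_contra! h2
    refine nolub ⟨J one, ?_, fun f hf => ?_⟩
    · rintro _ ⟨u, v, a, b, rfl⟩
      exact h1 u v a b
    · by_contra h3
      obtain ⟨u, v, a, b, c⟩ := h2 (f ⊓ J one) (inf_lt_right.2 h3)
      exact c (le_inf (hf ⟨u, v, a, b, rfl⟩) (h1 u v a b))
  refine ⟨E, F, inferInstance, inferInstance, inferInstance, inferInstance, inferInstance,
    inferInstance, inferInstance, inferInstance, inferInstance, inferInstance, S, fun _ => 0, J,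
    one, arch, S_oa, fun _ _ _ => (add_zero _).symm, ⟨J_oa, S_le, J_nn, least⟩, h,
    fun G _ _ _ ι hι R hR => ?_⟩
  obtain ⟨f, hf, h⟩ := h
  refine lt_of_le_of_lt (hR.2 (?_ : ι f ∈ upperBounds _)) (lt_of_le_not_ge ((hι _ _).2 hf.le)
    fun h' => hf.not_ge ((hι _ _).1 h'))
  rintro _ ⟨u, v, a, b, rfl⟩
  rw [← map_add]
  exact (hι _ _).2 (h u v a b)

end Pool.Agent.Results.MP_78978c_an.Counter
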